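import Pool.Agent.Helper91.FS.Goals2
import Pool.Agent.Helper90.SR.ORB

/-!
# Project FS (MP_0130f7_co), packet TWO: at most two orbits on the `m`-sets
-/

set_option autoImplicit false

namespace Pool.Agent.Helper24.FS

open Finset
open Pool.Agent.Helper47.SR (Grp mv lev wt Ew W IsInv up dn StarAt HalfStarAt orb)
open Pool.Agent.Helper90.SR (mem_orb self_mem_orb orb_eq_of_mem)
open Pool.Agent.Helper91.FS

theorem W_mono {n : ℕ} (G : Grp n) {F F' : Finset (Finset (Fin n))} (h : F ⊆ F') :
    W G F ≤ W G F' := Finset.sum_le_sum_of_subset h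

theorem goal_TWO (h1 : Pool.Agent.Helper47.SR.Goal_STAN) (h2 : Pool.Agent.Helper47.SR.Goal_ORB) :
    Pool.Agent.Helper91.FS.Goal_TWO := by
  intro n m G hT hm S Y hS hY hSi hYi hlt
  have hg : 0 < Nat.card G := Nat.card_pos
  by_cases hY0 : Y = ∅
  · have hd : dn m Y = ∅ := by
      rw [hY0]
      apply Finset.eq_empty_of_forall_notMem
      intro B hB
      simp only [dn, mem_filter, mem_powersetCard] at hB
      obtain ⟨⟨-, hc⟩, hall⟩ := hB
      have hpos : 0 < #B := by omega
      obtain ⟨a, ha⟩ := Finset.card_pos.1 hpos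
      exact absurd (hall a ha) (notMem_empty _)
    have h3 := h1 n G m hm S hS hSi
    have h4 : W G (dn m Y) = 0 := by
      rw [hd]
      rfl
    omega
  · have hSe : S = lev n m := by
      apply Finset.Subset.antisymm hS
      intro B0 hB0
      by_contra hBS
      have hone : #(S.image (orb G)) ≤ 1 := by
        rw [Finset.card_le_one]
        intro O hO O' hO'
        rw [mem_image] at hO hO'
        obtain ⟨C, hC, rfl⟩ := hO
        obtain ⟨C', hC', rfl⟩ := hO'
        rcases hT C (hS hC) C' (hS hC') B0 hB0 with ⟨γ, hγ, h⟩ | ⟨γ, hγ, h⟩ | ⟨γ, hγ, h⟩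
        · exact (orb_eq_of_mem G C C' ((mem_orb G C C').2 ⟨γ, hγ, h⟩)).symm
        · exact absurd (h ▸ hSi γ hγ C hC) hBS
        · exact absurd (h ▸ hSi γ hγ C' hC') hBS
      have hYne : 1 ≤ #(Y.image (orb G)) := by
        rw [Nat.succ_le_iff, Finset.card_pos]
        exact (Finset.nonempty_iff_ne_empty.2 hY0).image _
      rw [h2 n G S hSi, h2 n G Y hYi] at hlt
      have := Nat.lt_of_mul_lt_mul_left hlt
      omega
    set Z := lev n m \ Y with hZ
    have hZs : Z ⊆ lev n m := Finset.sdiff_subset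
    have hinv : ∀ γ ∈ G, ∀ A : Finset (Fin n), mv γ⁻¹ (mv γ A) = A := by
      intro γ _ A
      ext x
      have e : (Equiv.symm γ) ((Equiv.symm γ⁻¹) x) = x := Equiv.symm_apply_apply γ x
      simp [mv, e]
    have hZi : IsInv G Z := by
      intro γ hγ A hA
      rw [hZ, Finset.mem_sdiff] at hA ⊢
      refine ⟨?_, fun h => hA.2 ?_⟩
      · have := hSi γ hγ A (by rw [hSe]; exact hA.1)
        rwa [hSe] at this
      · have h3 := hYi γ⁻¹ (G.inv_mem hγ) _ h
        rwa [hinv γ hγ A] at h3
    have h3 := h1 n G m hm Z hZs hZi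
    have h4 : W G Z + W G Y = W G S := by
      rw [hSe, hZ]
      exact Finset.sum_sdiff hY
    have hdisj : Disjoint (dn m Y) (up m Z) := by
      rw [Finset.disjoint_left]
      intro B hB hB2
      simp only [dn, up, mem_filter] at hB hB2
      obtain ⟨a, ha, haZ⟩ := hB2.2
      rw [hZ, Finset.mem_sdiff] at haZ
      exact haZ.2 (hB.2 a ha)
    have hsub : dn m Y ∪ up m Z ⊆ up m S := by
      intro B hB
      rw [Finset.mem_union] at hB
      simp only [dn, up, mem_filter] at hB ⊢
      rcases hB with hB | hB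
      · refine ⟨hB.1, ?_⟩
        have hc := hB.1
        rw [mem_powersetCard] at hc
        have hpos : 0 < #B := by omega
        obtain ⟨a, ha⟩ := Finset.card_pos.1 hpos
        refine ⟨a, ha, ?_⟩
        rw [hSe]
        exact hY (hB.2 a ha)
      · refine ⟨hB.1, ?_⟩
        obtain ⟨a, ha, haZ⟩ := hB.2
        exact ⟨a, ha, by rw [hSe]; exact hZs haZ⟩
    have h5 : W G (dn m Y) + W G (up m Z) ≤ W G (up m S) := by
      have h6 := W_mono G hsub
      have h7 : W G (dn m Y ∪ up m Z) = W G (dn m Y) + W G (up m Z) := Finset.sum_union hdisj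
      omega
    omega

end Pool.Agent.Helper24.FS
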